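import Pool.Agent.helper82.LEQ.Spec

set_option autoImplicit false
set_option linter.style.haveILetI false

namespace LEQ

open scoped BigOperators
open QS (Lef EAb)

theorem PHI_map {G : Type} [Group G] (g : G) (E : Subgroup G) :
    Stb g E ↔ E.map (MulAut.conj g).toMonoidHom = E := by
  constructor
  · intro h
    ext x
    rw [Subgroup.mem_map]
    constructor
    · rintro ⟨y, hy, rfl⟩
      exact (h y).1 hy
    · intro hx
      refine ⟨g⁻¹ * x * g, ?_, ?_⟩
      · rw [h]
        have : g * (g⁻¹ * x * g) * g⁻¹ = x := by group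
        rwa [this]
      · show g * (g⁻¹ * x * g) * g⁻¹ = x
        group
  · intro h x
    constructor
    · intro hx
      rw [← h]
      exact ⟨x, hx, rfl⟩
    · intro hx
      rw [← h] at hx
      obtain ⟨y, hy, hy2⟩ := hx
      have hy3 : g * y * g⁻¹ = g * x * g⁻¹ := hy2
      have : y = x := by simpa using hy3
      rwa [← this]

theorem PHI_sup {G : Type} [Group G] (g : G) (E F : Subgroup G) (hE : Stb g E) (hF : Stb g F) :
    Stb g (E ⊔ F) := by
  rw [PHI_map] at *
  rw [Subgroup.map_sup, hE, hF]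

/-- the Frattini subgroup -/
def PHI_S {G : Type} [Group G] (p : ℕ) (P : Subgroup G) : Set G :=
  {z | (∃ x ∈ P, z = x ^ p) ∨ ∃ x ∈ P, ∃ y ∈ P, z = x * y * x⁻¹ * y⁻¹}

/-- the Frattini subgroup -/
def PHI_F {G : Type} [Group G] (p : ℕ) (P : Subgroup G) : Subgroup G := Subgroup.closure (PHI_S p P)

theorem PHI_stb1 {G : Type} [Group G] (p : ℕ) (P : Subgroup G) (g : G)
    (hg : ∀ x ∈ P, g * x * g⁻¹ ∈ P) : ∀ x ∈ PHI_F p P, g * x * g⁻¹ ∈ PHI_F p P := by
  intro x hx
  have h1 : (PHI_F p P).map (MulAut.conj g).toMonoidHom ≤ PHI_F p P := by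
    unfold PHI_F
    rw [MonoidHom.map_closure]
    apply Subgroup.closure_mono
    rintro _ ⟨z, hz, rfl⟩
    rcases hz with ⟨x, hx, rfl⟩ | ⟨x, hx, y, hy, rfl⟩
    · left
      refine ⟨g * x * g⁻¹, hg x hx, ?_⟩
      show g * x ^ p * g⁻¹ = _
      rw [conj_pow]
    · right
      refine ⟨g * x * g⁻¹, hg x hx, g * y * g⁻¹, hg y hy, ?_⟩
      show g * (x * y * x⁻¹ * y⁻¹) * g⁻¹ = _
      group
  exact h1 ⟨x, hx, rfl⟩

theorem PHI_stb {G : Type} [Group G] (p : ℕ) (P : Subgroup G) (g : G) (hg : Stb g P) :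
    Stb g (PHI_F p P) := by
  intro x
  constructor
  · exact PHI_stb1 p P g (fun x hx => (hg x).1 hx) x
  · intro hx
    have h1 := PHI_stb1 p P g⁻¹ (fun x hx => by
      rw [hg]
      have : g * (g⁻¹ * x * g⁻¹⁻¹) * g⁻¹ = x := by group
      rwa [this]) _ hx
    have : g⁻¹ * (g * x * g⁻¹) * g⁻¹⁻¹ = x := by group
    rwa [this] at h1

theorem PHI_le {G : Type} [Group G] (p : ℕ) (P : Subgroup G) : PHI_F p P ≤ P := by
  unfold PHI_F
  rw [Subgroup.closure_le]
  rintro z (⟨x, hx, rfl⟩ | ⟨x, hx, y, hy, rfl⟩)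
  · exact P.pow_mem hx p
  · exact P.mul_mem (P.mul_mem (P.mul_mem hx hy) (P.inv_mem hx)) (P.inv_mem hy)

theorem PHI_ne {G : Type} [Group G] (p : ℕ) (P : Subgroup G) (h : ¬ EAb p P) : PHI_F p P ≠ ⊥ := by
  intro h0
  apply h
  constructor
  · intro x hx y hy
    have : x * y * x⁻¹ * y⁻¹ ∈ PHI_F p P := Subgroup.subset_closure (Or.inr ⟨x, hx, y, hy, rfl⟩)
    rw [h0, Subgroup.mem_bot] at this
    rw [mul_inv_eq_one, mul_inv_eq_iff_eq_mul] at this
    exact this
  · intro x hx
    have : x ^ p ∈ PHI_F p P := Subgroup.subset_closure (Or.inl ⟨x, hx, rfl⟩)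
    rwa [h0, Subgroup.mem_bot] at this

/-- a maximal subgroup of a `p`-group contains all `p`-th powers and commutators -/
theorem PHI_max {P : Type} [Group P] [Finite P] (p : ℕ) (hp : p.Prime) (hP : IsPGroup p P)
    (M : Subgroup P) (hM : IsCoatom M) : (∀ x : P, x ^ p ∈ M) ∧ ∀ x y : P, x * y * x⁻¹ * y⁻¹ ∈ M := by
  haveI : Fact p.Prime := ⟨hp⟩
  haveI : Group.IsNilpotent P := hP.isNilpotent
  haveI hN : M.Normal := Subgroup.NormalizerCondition.normal_of_coatom M (Group.normalizerCondition_of_isNilpotent) hM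
  have hQ : IsPGroup p (P ⧸ M) := hP.to_quotient M
  haveI : Nontrivial (P ⧸ M) := by
    rw [QuotientGroup.nontrivial_iff]
    exact hM.1
  obtain ⟨n, hn⟩ := hQ.exists_card_eq
  have hdvd : p ∣ Nat.card (P ⧸ M) := by
    have h1 : 1 < Nat.card (P ⧸ M) := Finite.one_lt_card
    rw [hn] at h1 ⊢
    apply dvd_pow_self
    rintro rfl
    simp at h1
  obtain ⟨q, hq⟩ := exists_prime_orderOf_dvd_card' p hdvd
  have hz : Subgroup.zpowers q = ⊤ := by
    have h1 : M < (Subgroup.zpowers q).comap (QuotientGroup.mk' M) := by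
      rw [lt_iff_le_and_ne]
      constructor
      · intro x hx
        rw [Subgroup.mem_comap]
        have : (QuotientGroup.mk' M) x = 1 := (QuotientGroup.eq_one_iff x).2 hx
        rw [this]
        exact Subgroup.one_mem _
      · intro he
        obtain ⟨x, rfl⟩ := QuotientGroup.mk_surjective q
        have h2 : x ∈ (Subgroup.zpowers (x : P ⧸ M)).comap (QuotientGroup.mk' M) := by
          rw [Subgroup.mem_comap]
          exact Subgroup.mem_zpowers _
        rw [← he] at h2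
        have h3 : (x : P ⧸ M) = 1 := (QuotientGroup.eq_one_iff x).2 h2
        rw [h3, orderOf_one] at hq
        exact hp.one_lt.ne hq
    have h2 := hM.2 _ h1
    rw [eq_top_iff]
    intro y _
    obtain ⟨x, rfl⟩ := QuotientGroup.mk_surjective y
    have h3 : x ∈ (Subgroup.zpowers q).comap (QuotientGroup.mk' M) := by
      rw [h2]
      exact Subgroup.mem_top _
    exact h3
  constructor
  · intro x
    rw [← QuotientGroup.eq_one_iff, QuotientGroup.mk_pow]
    have h1 : (x : P ⧸ M) ∈ Subgroup.zpowers q := by rw [hz]; exact Subgroup.mem_top _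
    obtain ⟨k, hk⟩ := h1
    rw [← hk]
    show (q ^ k) ^ p = 1
    rw [← zpow_natCast, ← zpow_mul, mul_comm, zpow_mul, zpow_natCast, ← hq, pow_orderOf_eq_one, one_zpow]
  · intro x y
    rw [← QuotientGroup.eq_one_iff]
    have h1 : (x : P ⧸ M) ∈ Subgroup.zpowers q := by rw [hz]; exact Subgroup.mem_top _
    have h2 : (y : P ⧸ M) ∈ Subgroup.zpowers q := by rw [hz]; exact Subgroup.mem_top _
    obtain ⟨k, hk⟩ := h1
    obtain ⟨l, hl⟩ := h2
    have hk' : q ^ k = (x : P ⧸ M) := hk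
    have hl' : q ^ l = (y : P ⧸ M) := hl
    show (x : P ⧸ M) * (y : P ⧸ M) * (x : P ⧸ M)⁻¹ * (y : P ⧸ M)⁻¹ = 1
    rw [← hk', ← hl']
    group

theorem PHI_gen {G : Type} [Group G] [Finite G] (p : ℕ) (hp : p.Prime) (P : Subgroup G)
    (hP : IsPGroup p P) (F : Subgroup G) (hF : F ≤ P) (h : F ⊔ PHI_F p P = P) : F = P := by
  rcases eq_top_or_exists_le_coatom (F.subgroupOf P) with h1 | ⟨M, hM, hFM⟩
  · exact le_antisymm hF (Subgroup.subgroupOf_eq_top.1 h1)
  · exfalso
    obtain ⟨m1, m2⟩ := PHI_max p hp hP M hM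
    have h2 : PHI_F p P ≤ M.map P.subtype := by
      unfold PHI_F
      rw [Subgroup.closure_le]
      rintro z (⟨x, hx, rfl⟩ | ⟨x, hx, y, hy, rfl⟩)
      · exact ⟨⟨x, hx⟩ ^ p, m1 _, rfl⟩
      · exact ⟨⟨x, hx⟩ * ⟨y, hy⟩ * ⟨x, hx⟩⁻¹ * ⟨y, hy⟩⁻¹, m2 _ _, rfl⟩
    have h3 : F ≤ M.map P.subtype := by
      intro x hx
      exact ⟨⟨x, hF hx⟩, hFM (Subgroup.mem_subgroupOf.2 hx), rfl⟩
    have h4 : P ≤ M.map P.subtype := by
      calc P = F ⊔ PHI_F p P := h.symm
        _ ≤ _ := sup_le h3 h2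
    apply hM.1
    rw [eq_top_iff]
    intro x _
    obtain ⟨y, hy, hyx⟩ := h4 x.2
    have : y = x := Subtype.ext hyx
    rwa [← this]

theorem PHI (h1 : MB_stmt) : PHI_stmt := by
  classical
  intro G _ _ p hp g P hP hg hE
  set Φ := PHI_F p P with hΦ
  have hΦP : Φ ≤ P := PHI_le p P
  have hΦ0 : Φ ≠ ⊥ := PHI_ne p P hE
  have hΦg : Stb g Φ := PHI_stb p P g hg
  let f : Subgroup G → ℤ := fun E => ∑ F ∈ FS (fun F : Subgroup G => F ≤ P ∧ Stb g F ∧ F ⊔ Φ = E), Mb g F
  have hf : ∀ n : ℕ, ∀ E : Subgroup G, E ≤ P → Stb g E → Nat.card E = n → f E = 0 := by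
    intro n
    induction n using Nat.strong_induction_on with
    | _ n ih =>
      intro E hEP hEg hEn
      have hs : ∑ E' ∈ FS (fun E' : Subgroup G => E' ≤ E ∧ Stb g E'), f E' = 0 := by
        have e1 : ∑ E' ∈ FS (fun E' : Subgroup G => E' ≤ E ∧ Stb g E'), f E' =
            ∑ F ∈ FS (fun F : Subgroup G => F ≤ P ∧ Stb g F ∧ F ⊔ Φ ≤ E), Mb g F := by
          rw [← Finset.sum_fiberwise_of_maps_to
            (s := FS (fun F : Subgroup G => F ≤ P ∧ Stb g F ∧ F ⊔ Φ ≤ E))
            (t := FS (fun E' : Subgroup G => E' ≤ E ∧ Stb g E')) (g := fun F => F ⊔ Φ)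
            (fun F hF => by
              rw [mem_FS] at hF ⊢
              exact ⟨hF.2.2, PHI_sup g F Φ hF.2.1 hΦg⟩)]
          apply Finset.sum_congr rfl
          intro E' hE'
          rw [mem_FS] at hE'
          apply Finset.sum_congr _ (fun _ _ => rfl)
          ext F
          rw [Finset.mem_filter, mem_FS, mem_FS]
          constructor
          · rintro ⟨a, b, c⟩
            exact ⟨⟨a, b, by rw [c]; exact hE'.1⟩, c⟩
          · rintro ⟨⟨a, b, _⟩, c⟩
            exact ⟨a, b, c⟩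
        rw [e1]
        by_cases hc : Φ ≤ E
        · have e2 : FS (fun F : Subgroup G => F ≤ P ∧ Stb g F ∧ F ⊔ Φ ≤ E) =
              FS (fun F : Subgroup G => F ≤ E ∧ Stb g F) := by
            ext F
            rw [mem_FS, mem_FS]
            constructor
            · rintro ⟨_, b, c⟩
              exact ⟨le_sup_left.trans c, b⟩
            · rintro ⟨a, b⟩
              exact ⟨a.trans hEP, b, sup_le a hc⟩
          rw [e2]
          apply (h1 G g E hEg).2
          rintro rfl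
          exact hΦ0 (le_bot_iff.1 hc)
        · apply Finset.sum_eq_zero
          intro F hF
          rw [mem_FS] at hF
          exact absurd (le_sup_right.trans hF.2.2) hc
      have hmem : E ∈ FS (fun E' : Subgroup G => E' ≤ E ∧ Stb g E') := by
        rw [mem_FS]
        exact ⟨le_rfl, hEg⟩
      rw [← Finset.add_sum_erase _ _ hmem] at hs
      have h3 : ∑ E' ∈ (FS (fun E' : Subgroup G => E' ≤ E ∧ Stb g E')).erase E, f E' = 0 := by
        apply Finset.sum_eq_zero
        intro E' hE'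
        rw [Finset.mem_erase, mem_FS] at hE'
        have hlt : E' < E := lt_of_le_of_ne hE'.2.1 hE'.1
        apply ih (Nat.card E') _ E' (hE'.2.1.trans hEP) hE'.2.2 rfl
        rw [← hEn]
        have hss : (E' : Set G) ⊂ (E : Set G) := hlt
        exact Set.ncard_lt_ncard hss (Set.toFinite _)
      rw [h3, add_zero] at hs
      exact hs
  have h4 := hf (Nat.card P) P le_rfl hg rfl
  have h5 : FS (fun F : Subgroup G => F ≤ P ∧ Stb g F ∧ F ⊔ Φ = P) = {P} := by
    ext F
    rw [mem_FS, Finset.mem_singleton]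
    constructor
    · rintro ⟨a, _, c⟩
      exact PHI_gen p hp P hP F a c
    · rintro rfl
      exact ⟨le_rfl, hg, sup_eq_left.2 hΦP⟩
  have h6 : f P = Mb g P := by
    show ∑ F ∈ FS (fun F : Subgroup G => F ≤ P ∧ Stb g F ∧ F ⊔ Φ = P), Mb g F = Mb g P
    rw [h5, Finset.sum_singleton]
  rw [← h6]
  exact h4

end LEQ
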